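import Pool.Agent.Helper76.ND.StE

/-!
# Project ND, module Er

Replace the number of preimages by its mean.
-/

set_option autoImplicit false

noncomputable section

namespace Pool.Agent.Helper77.ND

open Pool.Agent.Helper76.ND Finset

/-- one periodic weight against the kernel `V * gg V / M` -/
theorem er_per (hPe : StPe) (hPo : StPo) (G : ℕ → ℝ) (P t k L : ℕ) (y : ℝ) (hy : 0 < y)
    (hG : ∀ M, 0 ≤ G M) (hper : ∀ M, G (M + P) = G M) (hP : 1 ≤ P)
    (hPy : (P : ℝ) ≤ 3 ^ k * y / 2 ^ t) :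
    ∑ M ∈ Icc 1 L, G M / M * ((2 ^ t * ((M : ℝ) / y) / 3 ^ k) *
      gg (2 ^ t * ((M : ℝ) / y) / 3 ^ k)) ≤ 3 / 2 / P * ∑ M ∈ range P, G M := by
  obtain ⟨_, hgg, hlo, hhi, _⟩ := hPo
  set a : ℝ := 3 ^ k * y / 2 ^ (t + 1) with ha
  have h3 : (0 : ℝ) < 3 ^ k := by positivity
  have h2 : (0 : ℝ) < 2 ^ t := by positivity
  have ha0 : 0 < a := by rw [ha]; positivity
  have h2a : 3 ^ k * y / 2 ^ t = 2 * a := by rw [ha, pow_succ]; field_simp
  have hP0 : (0 : ℝ) < P := by exact_mod_cast hP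
  have hP1 : (1 : ℝ) ≤ P := by exact_mod_cast hP
  rw [h2a] at hPy
  have hV : ∀ M : ℕ, 2 ^ t * ((M : ℝ) / y) / 3 ^ k = M / (2 * a) := by
    intro M
    rw [← h2a]
    field_simp
  have hS0 : 0 ≤ ∑ M ∈ range P, G M := sum_nonneg fun M _ => hG M
  have step : ∀ M ∈ Icc 1 L, G M / M * ((2 ^ t * ((M : ℝ) / y) / 3 ^ k) *
      gg (2 ^ t * ((M : ℝ) / y) / 3 ^ k)) ≤
      if M ∈ Ico ⌈a⌉₊ (⌊3 * a⌋₊ + 1) then G M / (4 * a) else 0 := by
    intro M hM
    have hM1 : 1 ≤ M := (mem_Icc.1 hM).1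
    have hM0 : (0 : ℝ) < M := by exact_mod_cast hM1
    rw [hV]
    split_ifs with hc
    · have hMa : a ≤ M := Nat.ceil_le.1 (mem_Ico.1 hc).1
      have h1 := (hgg ((M : ℝ) / (2 * a))).2.2.2
      have h0 := (hgg ((M : ℝ) / (2 * a))).2.2.1
      calc G M / M * ((M : ℝ) / (2 * a) * gg ((M : ℝ) / (2 * a)))
          ≤ G M / M * (1 / 4) :=
            mul_le_mul_of_nonneg_left h1 (div_nonneg (hG M) hM0.le)
        _ ≤ G M / a * (1 / 4) := by
            refine mul_le_mul_of_nonneg_right ?_ (by norm_num)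
            exact div_le_div_of_nonneg_left (hG M) ha0 hMa
        _ = G M / (4 * a) := by field_simp
    · have hz : gg ((M : ℝ) / (2 * a)) = 0 := by
        rw [mem_Ico, not_and_or] at hc
        rcases hc with hc | hc
        · apply hlo
          have : (M : ℝ) < a := by
            by_contra hcon
            exact hc (Nat.ceil_le.2 (not_lt.1 hcon))
          rw [div_le_div_iff₀ (by positivity) (by norm_num)]
          linarith
        · apply hhi
          have h5 : ⌊3 * a⌋₊ + 1 ≤ M := not_lt.1 hc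
          have h6 : 3 * a < M := by
            have := Nat.lt_floor_add_one (3 * a)
            have h7 : ((⌊3 * a⌋₊ + 1 : ℕ) : ℝ) ≤ M := by exact_mod_cast h5
            push_cast at h7
            linarith
          rw [div_le_div_iff₀ (by norm_num) (by positivity)]
          linarith
      rw [hz]; simp
  have hle : ⌈a⌉₊ ≤ ⌊3 * a⌋₊ + 1 := by
    have h1 : (⌈a⌉₊ : ℝ) < a + 1 := Nat.ceil_lt_add_one ha0.le
    have h2 : 3 * a < ⌊3 * a⌋₊ + 1 := Nat.lt_floor_add_one (3 * a)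
    have h3 : (⌈a⌉₊ : ℝ) < ((⌊3 * a⌋₊ + 1 + 1 : ℕ) : ℝ) := by push_cast; linarith
    have h4 : ⌈a⌉₊ < ⌊3 * a⌋₊ + 1 + 1 := by exact_mod_cast h3
    omega
  calc ∑ M ∈ Icc 1 L, G M / M * ((2 ^ t * ((M : ℝ) / y) / 3 ^ k) *
      gg (2 ^ t * ((M : ℝ) / y) / 3 ^ k))
      ≤ ∑ M ∈ Icc 1 L, if M ∈ Ico ⌈a⌉₊ (⌊3 * a⌋₊ + 1) then G M / (4 * a) else 0 :=
        sum_le_sum step
    _ = ∑ M ∈ (Icc 1 L).filter (fun M => M ∈ Ico ⌈a⌉₊ (⌊3 * a⌋₊ + 1)), G M / (4 * a) := by
        rw [sum_filter]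
    _ ≤ ∑ M ∈ Ico ⌈a⌉₊ (⌊3 * a⌋₊ + 1), G M / (4 * a) := by
        apply sum_le_sum_of_subset_of_nonneg
        · intro M hM; exact (mem_filter.1 hM).2
        · intro M _ _; exact div_nonneg (hG M) (by positivity)
    _ = (∑ M ∈ Ico ⌈a⌉₊ (⌊3 * a⌋₊ + 1), G M) / (4 * a) := by rw [sum_div]
    _ ≤ ((((⌊3 * a⌋₊ + 1 : ℕ) : ℝ) - (⌈a⌉₊ : ℕ)) / P + 1) * (∑ M ∈ range P, G M) / (4 * a) := by
        apply div_le_div_of_nonneg_right _ (by positivity)
        exact hPe.2 G P _ _ hP hG hper hle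
    _ ≤ ((2 * a + 1) / P + 1) * (∑ M ∈ range P, G M) / (4 * a) := by
        apply div_le_div_of_nonneg_right _ (by positivity)
        apply mul_le_mul_of_nonneg_right _ hS0
        have h1 : (⌊3 * a⌋₊ : ℝ) ≤ 3 * a := Nat.floor_le (by positivity)
        have h2 : a ≤ ⌈a⌉₊ := Nat.le_ceil a
        have h3 : ((⌊3 * a⌋₊ + 1 : ℕ) : ℝ) - (⌈a⌉₊ : ℕ) ≤ 2 * a + 1 := by push_cast; linarith
        have := div_le_div_of_nonneg_right h3 hP0.le
        linarith
    _ ≤ (6 * a / P) * (∑ M ∈ range P, G M) / (4 * a) := by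
        apply div_le_div_of_nonneg_right _ (by positivity)
        apply mul_le_mul_of_nonneg_right _ hS0
        rw [div_add_one hP0.ne']
        apply div_le_div_of_nonneg_right _ hP0.le
        linarith
    _ = 3 / 2 / P * ∑ M ∈ range P, G M := by field_simp; ring

/-- grouping the words by the number of heads -/
theorem er_group (t M : ℕ) (F : ℕ → ℝ) :
    ∑ l ∈ (W t).filter (fun l => 3 ^ hd l ∣ 2 ^ t * M + cc l), F (hd l) =
      ∑ k ∈ range (t + 1), 2 ^ t * nt k t M * F k := by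
  rw [← sum_fiberwise_of_maps_to (g := hd) (t := range (t + 1))]
  · refine sum_congr rfl fun k _ => ?_
    rw [filter_filter]
    have h1 : ∑ l ∈ (W t).filter (fun l => 3 ^ hd l ∣ 2 ^ t * M + cc l ∧ hd l = k), F (hd l) =
        ∑ l ∈ (W t).filter (fun l => 3 ^ hd l ∣ 2 ^ t * M + cc l ∧ hd l = k), F k := by
      refine sum_congr rfl fun l hl => ?_
      rw [(mem_filter.1 hl).2.2]
    rw [h1, sum_const, nsmul_eq_mul]
    have h2 : (W t).filter (fun l => 3 ^ hd l ∣ 2 ^ t * M + cc l ∧ hd l = k) =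
        (W t).filter (fun l => hd l = k ∧ 3 ^ k ∣ 2 ^ t * M + cc l) := by
      ext l
      simp only [mem_filter]
      constructor
      · rintro ⟨h, h4, rfl⟩; exact ⟨h, rfl, h4⟩
      · rintro ⟨h, rfl, h4⟩; exact ⟨h, h4, rfl⟩
    rw [h2, nt]
    have h3 : (2 : ℝ) ^ t ≠ 0 := by positivity
    field_simp
  · intro l hl
    have h1 : l.length = t := mem_W.1 (mem_filter.1 hl).1
    have h2 := hd_le l
    rw [mem_range]
    omega

theorem q_nonneg (t k : ℕ) : 0 ≤ q t k := by unfold q; positivity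

theorem nt_nonneg (k t M : ℕ) : 0 ≤ nt k t M := by unfold nt; positivity

theorem pim_nonneg (m M : ℕ) : 0 ≤ pim m M := by
  unfold pim ns
  exact sum_nonneg fun s _ => by positivity

/-- the error for one `(t, k)` -/
def erc (m k t : ℕ) : ℝ := if m ≤ k then 3 / 2 * Del m k t else 3 * q t k

theorem er_cell (hNs : StNs) (hPe : StPe) (hPo : StPo) (m k t L : ℕ) (y : ℝ) (hy : 0 < y)
    (hmy : (3 : ℝ) ^ m * 2 ^ t ≤ y) :
    ∑ M ∈ Icc 1 L, |3 ^ k * nt k t M - q t k * (3 ^ m * pim m M)| / M *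
      ((2 ^ t * ((M : ℝ) / y) / 3 ^ k) * gg (2 ^ t * ((M : ℝ) / y) / 3 ^ k)) ≤ erc m k t := by
  obtain ⟨_, hnt, hpi, _, hsn, hsp, _⟩ := hNs
  have h2 : (0 : ℝ) < 2 ^ t := by positivity
  have h3 : (0 : ℝ) < 3 ^ k := by positivity
  have h3m : (1 : ℝ) ≤ 3 ^ m := one_le_pow₀ (by norm_num)
  have hty : (2 : ℝ) ^ t ≤ y := by nlinarith
  have hk1 : ((3 ^ k : ℕ) : ℝ) ≤ 3 ^ k * y / 2 ^ t := by
    push_cast
    rw [le_div_iff₀ h2]
    exact mul_le_mul_of_nonneg_left hty h3.le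
  unfold erc
  split_ifs with hmk
  · have h := er_per hPe hPo (fun M => 3 ^ k * |nt k t M - q t k * pim m M / 3 ^ (k - m)|)
      (3 ^ k) t k L y hy (fun M => by positivity) (fun M => ?_) (Nat.one_le_pow _ _ (by norm_num)) hk1
    · refine le_trans (le_of_eq ?_) (le_trans h (le_of_eq ?_))
      · refine sum_congr rfl fun M _ => ?_
        have : (3 : ℝ) ^ k * nt k t M - q t k * (3 ^ m * pim m M) =
            3 ^ k * (nt k t M - q t k * pim m M / 3 ^ (k - m)) := by
          have h5 : (3 : ℝ) ^ k = 3 ^ m * 3 ^ (k - m) := by rw [← pow_add]; congr 1; omega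
          rw [mul_sub, h5]
          have h6 : (3 : ℝ) ^ (k - m) ≠ 0 := by positivity
          field_simp
        rw [this, abs_mul, abs_of_pos h3]
      · rw [← mul_sum]
        unfold Del
        push_cast
        generalize ∑ M ∈ range (3 ^ k), |nt k t M - q t k * pim m M / 3 ^ (k - m)| = D
        field_simp
    · have h7 : pim m (M + 3 ^ k) = pim m M := by
        have h8 : ∀ j M, pim m (M + 3 ^ m * j) = pim m M := by
          intro j
          induction j with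
          | zero => intro M; simp
          | succ j ih =>
            intro M
            rw [Nat.mul_succ, ← add_assoc, hpi, ih]
        have h9 : 3 ^ k = 3 ^ m * 3 ^ (k - m) := by rw [← pow_add]; congr 1; omega
        rw [h9, h8]
      simp only [hnt, h7]
  · have hmk' : k < m := not_le.1 hmk
    have hA := er_per hPe hPo (fun M => 3 ^ k * nt k t M)
      (3 ^ k) t k L y hy (fun M => mul_nonneg h3.le (nt_nonneg _ _ _))
      (fun M => by simp only [hnt]) (Nat.one_le_pow _ _ (by norm_num)) hk1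
    have hm1 : ((3 ^ m : ℕ) : ℝ) ≤ 3 ^ k * y / 2 ^ t := by
      push_cast
      rw [le_div_iff₀ h2]
      have : (1 : ℝ) ≤ 3 ^ k := one_le_pow₀ (by norm_num)
      nlinarith
    have hB := er_per hPe hPo (fun M => q t k * (3 ^ m * pim m M))
      (3 ^ m) t k L y hy
      (fun M => mul_nonneg (q_nonneg _ _) (mul_nonneg (by positivity) (pim_nonneg _ _)))
      (fun M => by simp only [hpi]) (Nat.one_le_pow _ _ (by norm_num)) hm1
    have hA2 : 3 / 2 / ((3 ^ k : ℕ) : ℝ) * ∑ M ∈ range (3 ^ k), 3 ^ k * nt k t M =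
        3 / 2 * q t k := by
      rw [← mul_sum, hsn]
      push_cast
      field_simp
    have hB2 : 3 / 2 / ((3 ^ m : ℕ) : ℝ) * ∑ M ∈ range (3 ^ m), q t k * (3 ^ m * pim m M) ≤
        3 / 2 * q t k := by
      rw [← mul_sum, ← mul_sum]
      push_cast
      have h5 : 3 / 2 / (3 : ℝ) ^ m * (q t k * (3 ^ m * ∑ M ∈ range (3 ^ m), pim m M)) =
          3 / 2 * q t k * ∑ M ∈ range (3 ^ m), pim m M := by field_simp
      rw [h5]
      have := hsp m
      have h6 := q_nonneg t k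
      nlinarith
    rw [hA2] at hA
    have hB' := le_trans hB hB2
    refine le_trans (sum_le_sum fun M hM => ?_)
      (le_trans (le_of_eq sum_add_distrib) (le_trans (add_le_add hA hB') (by linarith)))
    have h0 := (hPo.2.1 (2 ^ t * ((M : ℝ) / y) / 3 ^ k)).2.2.1
    rw [← add_mul, ← add_div]
    refine mul_le_mul_of_nonneg_right ?_ h0
    refine div_le_div_of_nonneg_right ?_ (Nat.cast_nonneg M)
    have h9 := abs_sub (3 ^ k * nt k t M) (q t k * (3 ^ m * pim m M))
    rw [abs_of_nonneg (mul_nonneg h3.le (nt_nonneg k t M)),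
      abs_of_nonneg (mul_nonneg (q_nonneg t k) (mul_nonneg (by positivity) (pim_nonneg m M)))] at h9
    exact h9

theorem Del_nonneg (m k t : ℕ) : 0 ≤ Del m k t := sum_nonneg fun _ _ => abs_nonneg _

theorem er_row (m t : ℕ) : ∑ k ∈ range (t + 1), erc m k t ≤
    3 / 2 * ∑ k ∈ Icc m t, Del m k t + 3 * ∑ k ∈ range m, q t k := by
  have h1 : ∀ k ∈ range (t + 1), erc m k t =
      (if m ≤ k then 3 / 2 * Del m k t else 0) + (if k < m then 3 * q t k else 0) := by
    intro k _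
    unfold erc
    by_cases h : m ≤ k
    · rw [if_pos h, if_pos h, if_neg (not_lt.2 h), add_zero]
    · rw [if_neg h, if_neg h, if_pos (not_le.1 h), zero_add]
  rw [sum_congr rfl h1, sum_add_distrib, ← sum_filter, ← sum_filter]
  apply add_le_add
  · rw [mul_sum]
    apply sum_le_sum_of_subset_of_nonneg
    · intro k hk
      rw [mem_filter, mem_range] at hk
      rw [mem_Icc]; omega
    · intro k _ _
      exact mul_nonneg (by norm_num) (Del_nonneg _ _ _)
  · rw [mul_sum]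
    apply sum_le_sum_of_subset_of_nonneg
    · intro k hk
      exact mem_range.2 (mem_filter.1 hk).2
    · intro k _ _
      exact mul_nonneg (by norm_num) (q_nonneg _ _)

/-- **Er**: replace the number of preimages by its mean -/
theorem hEr (hNs : StNs) (hPe : StPe) (hQs : StQs) (hPo : StPo) : StEr := by
  intro x y m f hx hy hf hmy
  set κ : ℝ := rho / (Real.log x / 100) with hκ
  have hrho : 0 < rho := by
    unfold rho
    have := Real.log_pos (show (1 : ℝ) < 4 / 3 by norm_num)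
    linarith
  have hκ0 : 0 ≤ κ := by
    rw [hκ]
    have := Real.log_pos hx
    positivity
  have hkap : ∀ M, 0 ≤ kap x M ∧ kap x M ≤ κ := by
    intro M
    unfold kap
    split_ifs
    · exact ⟨hκ0, le_refl _⟩
    · exact ⟨le_refl _, hκ0⟩
  have hmt : ∀ t ∈ range (t1 x y + 1), (3 : ℝ) ^ m * 2 ^ t ≤ y := by
    intro t ht
    have h1 : t ≤ t1 x y := by rw [mem_range] at ht; omega
    have h2 : (2 : ℝ) ^ t ≤ 2 ^ t1 x y := pow_le_pow_right₀ (by norm_num) h1
    have h3 : (0 : ℝ) < 3 ^ m := by positivity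
    nlinarith
  have hdiff : Ag x y f - Am x y m f = ∑ t ∈ range (t1 x y + 1), ∑ M ∈ Icc 1 ⌊zr x⌋₊,
      kap x M * f M * ∑ k ∈ range (t + 1),
        (3 ^ k * nt k t M - q t k * (3 ^ m * pim m M)) / M *
          ((2 ^ t * ((M : ℝ) / y) / 3 ^ k) * gg (2 ^ t * ((M : ℝ) / y) / 3 ^ k)) := by
    unfold Ag Am
    rw [← sum_sub_distrib]
    refine sum_congr rfl fun t _ => ?_
    rw [← sum_sub_distrib]
    refine sum_congr rfl fun M hM => ?_
    have hM1 : 1 ≤ M := (mem_Icc.1 hM).1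
    have hM0 : (M : ℝ) ≠ 0 := by
      have : (0 : ℝ) < M := by exact_mod_cast hM1
      exact this.ne'
    rw [er_group t M (fun k => gg (2 ^ t * M / 3 ^ k / y) / y), mul_assoc (kap x M * f M),
      ← mul_sub, mul_sum, ← sum_sub_distrib]
    congr 1
    refine sum_congr rfl fun k _ => ?_
    have hV : (2 : ℝ) ^ t * M / 3 ^ k / y = 2 ^ t * ((M : ℝ) / y) / 3 ^ k := by
      field_simp
    rw [hV]
    generalize gg (2 ^ t * ((M : ℝ) / y) / 3 ^ k) = g
    field_simp
  rw [hdiff]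
  have hcell : ∀ t ∈ range (t1 x y + 1), |∑ M ∈ Icc 1 ⌊zr x⌋₊,
      kap x M * f M * ∑ k ∈ range (t + 1),
        (3 ^ k * nt k t M - q t k * (3 ^ m * pim m M)) / M *
          ((2 ^ t * ((M : ℝ) / y) / 3 ^ k) * gg (2 ^ t * ((M : ℝ) / y) / 3 ^ k))| ≤
      κ * (3 / 2 * ∑ k ∈ Icc m t, Del m k t + 3 * ∑ k ∈ range m, q t k) := by
    intro t ht
    calc _ ≤ ∑ M ∈ Icc 1 ⌊zr x⌋₊, |kap x M * f M * ∑ k ∈ range (t + 1),
        (3 ^ k * nt k t M - q t k * (3 ^ m * pim m M)) / M *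
          ((2 ^ t * ((M : ℝ) / y) / 3 ^ k) * gg (2 ^ t * ((M : ℝ) / y) / 3 ^ k))| :=
          abs_sum_le_sum_abs _ _
      _ ≤ ∑ M ∈ Icc 1 ⌊zr x⌋₊, κ * ∑ k ∈ range (t + 1),
        |3 ^ k * nt k t M - q t k * (3 ^ m * pim m M)| / M *
          ((2 ^ t * ((M : ℝ) / y) / 3 ^ k) * gg (2 ^ t * ((M : ℝ) / y) / 3 ^ k)) := by
          refine sum_le_sum fun M _ => ?_
          rw [abs_mul]
          have hk := hkap M
          have hfM := hf M
          apply mul_le_mul
          · rw [abs_of_nonneg (mul_nonneg hk.1 hfM.1)]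
            nlinarith [hk.1, hk.2, hfM.1, hfM.2]
          · refine le_trans (abs_sum_le_sum_abs _ _) (sum_le_sum fun k _ => ?_)
            have h0 := (hPo.2.1 (2 ^ t * ((M : ℝ) / y) / 3 ^ k)).2.2.1
            rw [abs_mul, abs_div, Nat.abs_cast, abs_of_nonneg h0]
          · exact abs_nonneg _
          · exact hκ0
      _ = κ * ∑ k ∈ range (t + 1), ∑ M ∈ Icc 1 ⌊zr x⌋₊,
        |3 ^ k * nt k t M - q t k * (3 ^ m * pim m M)| / M *
          ((2 ^ t * ((M : ℝ) / y) / 3 ^ k) * gg (2 ^ t * ((M : ℝ) / y) / 3 ^ k)) := by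
          rw [← mul_sum, sum_comm]
      _ ≤ κ * ∑ k ∈ range (t + 1), erc m k t := by
          refine mul_le_mul_of_nonneg_left (sum_le_sum fun k _ => ?_) hκ0
          exact er_cell hNs hPe hPo m k t _ y hy (hmt t ht)
      _ ≤ _ := mul_le_mul_of_nonneg_left (er_row m t) hκ0
  refine le_trans (abs_sum_le_sum_abs _ _) (le_trans (sum_le_sum hcell) ?_)
  rw [← mul_sum]
  refine mul_le_mul_of_nonneg_left ?_ hκ0
  rw [sum_add_distrib, ← mul_sum, ← mul_sum, sum_comm (s := range (t1 x y + 1)) (t := range m)]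
  have h7 : ∑ k ∈ range m, ∑ t ∈ range (t1 x y + 1), q t k ≤ ∑ k ∈ range m, (2 : ℝ) :=
    sum_le_sum fun k _ => hQs.2.1 k _
  rw [sum_const, card_range, nsmul_eq_mul] at h7
  linarith

end Pool.Agent.Helper77.ND
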