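import Pool.Agent.Helper76.ND.StE

/-!
# Project ND, module Vh

Position after `t` steps.
-/

set_option autoImplicit false

noncomputable section

namespace Pool.Agent.Helper77.ND

open Pool.Agent.Helper76.ND Finset

theorem wd_length (t N : ℕ) : (wd t N).length = t := by
  induction t with
  | zero => rfl
  | succ t ih => simp [wd, ih]

theorem vh_rho : rho = Real.log 2 - Real.log 3 / 2 := by
  unfold rho
  rw [Real.log_div (by norm_num) (by norm_num), show (4 : ℝ) = 2 ^ 2 by norm_num, Real.log_pow]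
  push_cast
  ring

/-- **Vh**: position after `t` steps -/
theorem hVh (hRl : StRl) (hDr : StDr) (hPr : StPr) : StVh := by
  obtain ⟨x0, hx03, hPr⟩ := hPr
  refine ⟨x0, hx03, ?_⟩
  intro x y N hx hyr hN1 hN2 hgd t ht
  obtain ⟨hL1, hxy, _, ht2, _, _, _, hpow, hr1, hr2, _, _, _, hlast⟩ := hPr x y hx hyr
  have hx0 : 0 < x := by linarith
  have hy0 : 0 < y := by linarith
  have hN0 : (0 : ℝ) < N := by linarith
  set L : ℝ := Real.log x with hLdef
  set D : ℝ := L ^ (2 / 3 : ℝ) with hD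
  have hD1 : 1 ≤ D := Real.one_le_rpow hL1 (by norm_num)
  set l : List Bool := wd t N with hl
  have hll : l.length = t := wd_length t N
  have hgl : Gd D l := by
    intro j hj
    rw [hll] at hj ⊢
    have h1 := hgd j (by rw [wd_length]; omega)
    rw [wd_length, hRl.2.2 _ j N (by omega)] at h1
    rw [hl, hRl.2.2 t j N hj]
    exact h1
  have hh : |(hd l : ℝ) - t / 2| ≤ D := by
    have h1 := hgl t (by rw [hll])
    rw [hll, Nat.sub_self, List.drop_zero] at h1
    exact h1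
  have hid : (3 : ℝ) ^ hd l * N = 2 ^ t * ((S^[t] N : ℕ) : ℝ) + cc l := by
    exact_mod_cast hRl.1 t N
  have h3 : (0 : ℝ) < 3 ^ hd l := by positivity
  have h2 : (0 : ℝ) < 2 ^ t := by positivity
  have hs3 : (0 : ℝ) < Real.sqrt 3 := Real.sqrt_pos.2 (by norm_num)
  have hb1 : (1 : ℝ) ≤ 2 / Real.sqrt 3 := by
    rw [le_div_iff₀ hs3, one_mul, Real.sqrt_le_left (by norm_num)]
    norm_num
  have h3D : (0 : ℝ) < (3 : ℝ) ^ D := by positivity
  have hcc : (cc l : ℝ) ≤ 3 ^ hd l * (N / 2) := by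
    refine le_trans (hDr l D (by linarith) hgl) ?_
    refine mul_le_mul_of_nonneg_left ?_ h3.le
    rw [hll]
    have e1 : (t : ℝ) ≤ L / 2 := le_trans (by exact_mod_cast ht) ht2
    have e2 : (2 / Real.sqrt 3) ^ t ≤ x ^ (1 / 20 : ℝ) :=
      le_trans (pow_le_pow_right₀ hb1 ht) hpow
    have e3 : (t : ℝ) * (2 / Real.sqrt 3) ^ t ≤ L / 2 * x ^ (1 / 20 : ℝ) :=
      mul_le_mul e1 e2 (by positivity) (by linarith)
    have e4 : (t : ℝ) * (2 / Real.sqrt 3) ^ t * (3 : ℝ) ^ D ≤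
        x ^ (1 / 20 : ℝ) * (L / 2 * (3 : ℝ) ^ D) := by
      have := mul_le_mul_of_nonneg_right e3 h3D.le
      linarith
    have e5 : x ^ (1 / 20 : ℝ) * (L / 2 * (3 : ℝ) ^ D) ≤ x ^ (1 / 20 : ℝ) * (x / 8) :=
      mul_le_mul_of_nonneg_left hlast (by positivity)
    have e6 : x ^ (1 / 20 : ℝ) * (x / 8) = x ^ (105 / 100 : ℝ) / 8 := by
      have : x ^ (105 / 100 : ℝ) = x ^ (1 / 20 : ℝ) * x := by
        rw [← Real.rpow_add_one hx0.ne']
        norm_num
      rw [this]
      ring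
    have e7 := hyr.1
    linarith
  have hsy : (2 : ℝ) ^ t * ((S^[t] N : ℕ) : ℝ) = 3 ^ hd l * N - cc l := by linarith
  have hlow : 3 ^ hd l * ((N : ℝ) / 2) ≤ 2 ^ t * ((S^[t] N : ℕ) : ℝ) := by rw [hsy]; linarith
  have hupp : (2 : ℝ) ^ t * ((S^[t] N : ℕ) : ℝ) ≤ 3 ^ hd l * N := by
    rw [hsy]
    have : (0 : ℝ) ≤ cc l := Nat.cast_nonneg _
    linarith
  have hS0 : (0 : ℝ) < ((S^[t] N : ℕ) : ℝ) := by
    have h5 : 0 < (2 : ℝ) ^ t * ((S^[t] N : ℕ) : ℝ) :=
      lt_of_lt_of_le (mul_pos h3 (by linarith)) hlow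
    exact (mul_pos_iff_of_pos_left h2).1 h5
  have g1 : (hd l : ℝ) * Real.log 3 + (Real.log N - Real.log 2) ≤
      t * Real.log 2 + Real.log ((S^[t] N : ℕ) : ℝ) := by
    have := Real.log_le_log (mul_pos h3 (by linarith)) hlow
    rwa [Real.log_mul h3.ne' (by positivity), Real.log_mul h2.ne' hS0.ne', Real.log_pow,
      Real.log_pow, Real.log_div hN0.ne' (by norm_num)] at this
  have g2 : t * Real.log 2 + Real.log ((S^[t] N : ℕ) : ℝ) ≤
      (hd l : ℝ) * Real.log 3 + Real.log N := by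
    have := Real.log_le_log (mul_pos h2 hS0) hupp
    rwa [Real.log_mul h3.ne' hN0.ne', Real.log_mul h2.ne' hS0.ne', Real.log_pow,
      Real.log_pow] at this
  have g3 : Real.log y - Real.log 2 ≤ Real.log N := by
    rw [← Real.log_div hy0.ne' (by norm_num)]
    exact Real.log_le_log (by linarith) hN1
  have g4 : Real.log N ≤ Real.log y + Real.log 2 := by
    rw [← Real.log_mul hy0.ne' (by norm_num)]
    exact Real.log_le_log hN0 (by linarith)
  have hl2 := Real.log_two_lt_d9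
  have hl2' := Real.log_two_gt_d9
  have hr := vh_rho
  have hl3 : Real.log 3 ≤ 1101 / 1000 := by linarith
  have hl30 : 0 ≤ Real.log 3 := Real.log_nonneg (by norm_num)
  have hdev : |((hd l : ℝ) - t / 2) * Real.log 3| ≤ 1101 / 1000 * D := by
    rw [abs_mul, abs_of_nonneg hl30, mul_comm]
    exact mul_le_mul hl3 hh (abs_nonneg _) (by norm_num)
  have hdev' := abs_le.1 hdev
  have hkey : (hd l : ℝ) * Real.log 3 - t * Real.log 2 =
      -(rho * t) + ((hd l : ℝ) - t / 2) * Real.log 3 := by rw [hr]; ring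
  rw [abs_le]
  constructor <;> linarith [hdev'.1, hdev'.2]

end Pool.Agent.Helper77.ND
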